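import Mathlib
import Pool.Agent.Lib.MP_52d9f3_co.Defs

/-!
An injection from the avoiders of `dist_r(132)` to the avoiders of `dist_r(123)`.
-/

namespace Pool.Agent.Lib.MP_52d9f3_co.M3

open Pool.Agent.Lib.MP_52d9f3_co

/-- Rearranging a set of values in the decreasing order of an injective key. -/
theorem exists_sort {n : ℕ} {β : Type} [LinearOrder β] (V : Fin n → Prop) (key : Fin n → β)
    (hkey : Function.Injective key) :
    ∃ ρ : Equiv.Perm (Fin n), (∀ x, ¬ V x → ρ x = x) ∧ (∀ x, V x → V (ρ x)) ∧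
      ∀ x y, V x → V y → (ρ x < ρ y ↔ key y < key x) := by
  classical
  obtain ⟨k, hk⟩ : ∃ k, Fintype.card {x // V x} = k := ⟨_, rfl⟩
  let e : Fin k ≃o {x // V x} := monoEquivOfFin _ hk
  let f : Fin k → βᵒᵈ := fun i => OrderDual.toDual (key (e i))
  have hf : Function.Injective f := by
    intro a b hab
    have h1 : key (e a) = key (e b) := hab
    exact e.injective (Subtype.ext (hkey h1))
  have hmono : StrictMono (f ∘ Tuple.sort f) :=
    (Tuple.monotone_sort f).strictMono_of_injective (hf.comp (Tuple.sort f).injective)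
  let τ : Equiv.Perm {x // V x} :=
    e.toEquiv.symm.trans ((Tuple.sort f).symm.trans e.toEquiv)
  refine ⟨Equiv.Perm.ofSubtype τ, fun x hx => Equiv.Perm.ofSubtype_apply_of_not_mem τ hx,
    fun x hx => ?_, fun x y hx hy => ?_⟩
  · rw [Equiv.Perm.ofSubtype_apply_of_mem τ hx]; exact (τ ⟨x, hx⟩).2
  · rw [Equiv.Perm.ofSubtype_apply_of_mem τ hx, Equiv.Perm.ofSubtype_apply_of_mem τ hy]
    have h1 : ((τ ⟨x, hx⟩ : {x // V x}) : Fin n) < (τ ⟨y, hy⟩ : {x // V x}) ↔
        (Tuple.sort f).symm (e.symm ⟨x, hx⟩) < (Tuple.sort f).symm (e.symm ⟨y, hy⟩) := by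
      rw [Subtype.coe_lt_coe]
      exact e.lt_iff_lt
    rw [h1, ← hmono.lt_iff_lt]
    simp only [Function.comp_apply, Equiv.apply_symm_apply, f, OrderIso.apply_symm_apply,
      OrderDual.toDual_lt_toDual]

variable {n : ℕ} (r : ℕ)

/-- The value `x` is available at time `j`: a smaller value stands at least `r + 1` places before. -/
def Avail (π : Equiv.Perm (Fin n)) (j : ℕ) (x : Fin n) : Prop :=
  ∃ i : Fin n, (i : ℕ) + (r + 1) ≤ j ∧ π i < x

theorem Avail.mono {r : ℕ} {π : Equiv.Perm (Fin n)} {j j' : ℕ} {x x' : Fin n} (h : Avail r π j x)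
    (hj : j ≤ j') (hx : x ≤ x') : Avail r π j' x' := by
  obtain ⟨i, h1, h2⟩ := h
  exact ⟨i, h1.trans hj, h2.trans_le hx⟩

/-- The values that are available at their own position. -/
def Reg (π : Equiv.Perm (Fin n)) (x : Fin n) : Prop := Avail r π (π.symm x) x

/-- The times at which `x` is available and a value at least `x` is placed. -/
def Times (π : Equiv.Perm (Fin n)) (x : Fin n) : Set ℕ :=
  {t | ∃ j : Fin n, (j : ℕ) = t ∧ Avail r π t x ∧ x ≤ π j}

/-- The first such time. -/
noncomputable def kap (π : Equiv.Perm (Fin n)) (x : Fin n) : ℕ := sInf (Times r π x)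

theorem own_mem {r : ℕ} {π : Equiv.Perm (Fin n)} {x : Fin n} (h : Reg r π x) :
    ((π.symm x : Fin n) : ℕ) ∈ Times r π x := ⟨π.symm x, rfl, h, by simp⟩

theorem kap_le {r : ℕ} {π : Equiv.Perm (Fin n)} {x : Fin n} (h : Reg r π x) :
    kap r π x ≤ (π.symm x : Fin n) := Nat.sInf_le (own_mem h)

theorem kap_mem {r : ℕ} {π : Equiv.Perm (Fin n)} {x : Fin n} (h : Reg r π x) :
    kap r π x ∈ Times r π x := Nat.sInf_mem ⟨_, own_mem h⟩

theorem kap_avail {r : ℕ} {π : Equiv.Perm (Fin n)} {x : Fin n} (h : Reg r π x) :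
    Avail r π (kap r π x) x := by
  obtain ⟨_, _, h2, _⟩ := kap_mem h
  exact h2

theorem reg_iff (π : Equiv.Perm (Fin n)) (j : Fin n) : Reg r π (π j) ↔ Avail r π j (π j) := by
  simp [Reg]

/-- `ρ` fixes the values outside the region and sorts the region by first time, then value. -/
def Good (π ρ : Equiv.Perm (Fin n)) : Prop :=
  (∀ x, ¬ Reg r π x → ρ x = x) ∧ (∀ x, Reg r π x → Reg r π (ρ x)) ∧
    ∀ x y, Reg r π x → Reg r π y →
      (ρ x < ρ y ↔ (kap r π y < kap r π x ∨ (kap r π y = kap r π x ∧ y < x)))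

theorem exists_good (π : Equiv.Perm (Fin n)) : ∃ ρ, Good r π ρ := by
  obtain ⟨ρ, h1, h2, h3⟩ := exists_sort (Reg r π) (fun x => toLex (kap r π x, x)) (by
    intro a b hab
    have := congrArg (fun p => (ofLex p).2) hab
    simpa using this)
  refine ⟨ρ, h1, h2, fun x y hx hy => ?_⟩
  rw [h3 x y hx hy, Prod.Lex.toLex_lt_toLex]

variable {r}

/-- The new value of a region point is still available at its position. -/
theorem Good.avail {π ρ : Equiv.Perm (Fin n)} (h : Good r π ρ) {x : Fin n} (hx : Reg r π x) :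
    Avail r π (π.symm x) (ρ x) := by
  classical
  obtain ⟨h1, h2, h3⟩ := h
  by_contra hc
  let A : Finset (Fin n) := Finset.univ.filter fun y => Reg r π y ∧ Avail r π (π.symm x) y
  have hreg : ∀ z, Reg r π z → Reg r π (ρ.symm z) := by
    intro z hz
    by_contra hz'
    have := h1 _ hz'
    rw [Equiv.apply_symm_apply] at this
    rw [← this] at hz'
    exact hz' hz
  have hnot : ρ x ∉ A := by simp [A, hc]
  have hle : (insert (ρ x) A).card ≤ A.card := by
    refine Finset.card_le_card_of_injOn ρ.symm (fun z hz => ?_) ρ.symm.injective.injOn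
    simp only [Finset.coe_insert, Set.mem_insert_iff, Finset.mem_coe, A, Finset.mem_filter,
      Finset.mem_univ, true_and] at hz ⊢
    rcases hz with rfl | ⟨hz1, hz2⟩
    · rw [Equiv.symm_apply_apply]; exact ⟨hx, hx⟩
    · have hz3 := hreg z hz1
      refine ⟨hz3, ?_⟩
      have hlt : ρ x < ρ (ρ.symm z) := by
        rw [Equiv.apply_symm_apply]
        by_contra hge
        exact hc (hz2.mono le_rfl (not_lt.mp hge))
      have h4 := (h3 _ _ hx hz3).mp hlt
      have h5 := kap_le hx
      exact (kap_avail hz3).mono (by omega) le_rfl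
  rw [Finset.card_insert_of_notMem hnot] at hle
  omega

theorem Good.avail' {π ρ : Equiv.Perm (Fin n)} (h : Good r π ρ) {j : Fin n}
    (hj : Reg r π (π j)) : Avail r π j (ρ (π j)) := by
  simpa using h.avail hj

theorem Good.reg_of_avail {π ρ : Equiv.Perm (Fin n)} (h : Good r π ρ) {j : Fin n}
    (hj : Avail r π j (ρ (π j))) : Reg r π (π j) := by
  by_contra hc
  rw [h.1 _ hc] at hj
  exact hc ((reg_iff r π j).mpr hj)

theorem Good.avail_of_new {π ρ : Equiv.Perm (Fin n)} (h : Good r π ρ) {i : Fin n} {j : ℕ}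
    {x : Fin n} (hij : (i : ℕ) + (r + 1) ≤ j) (hx : ρ (π i) < x) : Avail r π j x := by
  by_cases hi : Reg r π (π i)
  · exact (h.avail' hi).mono (by omega) hx.le
  · rw [h.1 _ hi] at hx
    exact ⟨i, hij, hx⟩

/-- No occurrence of `dist_r(132)`, written with three positions. -/
def No132 (r : ℕ) (π : Equiv.Perm (Fin n)) : Prop :=
  ∀ i j k : Fin n, (i : ℕ) + (r + 1) ≤ j → (j : ℕ) + (r + 1) ≤ k → π i < π k → π k < π j → False

/-- No occurrence of `dist_r(123)`, written with three positions. -/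
def No123 (r : ℕ) (π : Equiv.Perm (Fin n)) : Prop :=
  ∀ i j k : Fin n, (i : ℕ) + (r + 1) ≤ j → (j : ℕ) + (r + 1) ≤ k → π i < π j → π j < π k → False

theorem pos_le_kap {π : Equiv.Perm (Fin n)} (hπ : No132 r π) {k : Fin n} (hk : Reg r π (π k)) :
    (k : ℕ) ≤ kap r π (π k) + r := by
  obtain ⟨j, hj, ⟨i, hi1, hi2⟩, hle⟩ := kap_mem hk
  by_contra hc
  have hne : π k ≠ π j := by
    intro he
    have := π.injective he
    subst this
    omega
  exact hπ i j k (by omega) (by omega) hi2 (lt_of_le_of_ne hle hne)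

theorem Good.no123 {π ρ : Equiv.Perm (Fin n)} (h : Good r π ρ) (hπ : No132 r π) :
    No123 r (π.trans ρ) := by
  intro i j k hij hjk h1 h2
  simp only [Equiv.trans_apply] at h1 h2
  have hj : Reg r π (π j) := h.reg_of_avail (h.avail_of_new hij h1)
  have hk : Reg r π (π k) := h.reg_of_avail (h.avail_of_new hjk h2)
  have h3 := (h.2.2 _ _ hj hk).mp h2
  have h4 := kap_le hj
  rw [Equiv.symm_apply_apply] at h4
  have h5 := pos_le_kap hπ hk
  omega

/-- The values that are unused and available at time `j`. -/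
def Stock (r : ℕ) (π : Equiv.Perm (Fin n)) (j : Fin n) (z : Fin n) : Prop :=
  Avail r π j z ∧ ∀ i : Fin n, i < j → π i ≠ z

theorem Stock.le {π : Equiv.Perm (Fin n)} {j z : Fin n} (h : Stock r π j z) : j ≤ π.symm z := by
  by_contra hc
  exact h.2 _ (not_le.mp hc) (by simp)

theorem Stock.reg {π : Equiv.Perm (Fin n)} {j z : Fin n} (h : Stock r π j z) : Reg r π z :=
  h.1.mono h.le le_rfl

/-- The order on the pool that is visible at time `j`. -/
def Bef (r : ℕ) (π : Equiv.Perm (Fin n)) (j : Fin n) (z x : Fin n) : Prop :=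
  min (kap r π z) j < min (kap r π x) j ∨ (min (kap r π z) j = min (kap r π x) j ∧ z < x)

theorem Good.later_iff {π ρ : Equiv.Perm (Fin n)} (h : Good r π ρ) {j : Fin n}
    (hj : Reg r π (π j)) (k : Fin n) :
    (j < k ∧ ρ (π j) < ρ (π k)) ↔ (Stock r π j (π k) ∧ Bef r π j (π k) (π j)) := by
  have h4 := kap_le hj
  rw [Equiv.symm_apply_apply] at h4
  constructor
  · rintro ⟨hjk, hlt⟩
    have hk : Reg r π (π k) := h.reg_of_avail ((h.avail' hj).mono hjk.le hlt.le)
    have h3 := (h.2.2 _ _ hj hk).mp hlt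
    refine ⟨⟨(kap_avail hk).mono (by omega) le_rfl, fun i hi he => ?_⟩, ?_⟩
    · have := π.injective he
      subst this
      exact lt_asymm hi hjk
    · unfold Bef
      omega
  · rintro ⟨hp, hb⟩
    have hk := hp.reg
    have hle := hp.le
    rw [Equiv.symm_apply_apply] at hle
    have hne : j ≠ k := by
      rintro rfl
      unfold Bef at hb
      omega
    refine ⟨lt_of_le_of_ne hle hne, (h.2.2 _ _ hj hk).mpr ?_⟩
    rcases hb with hb | ⟨hb1, hb2⟩
    · omega
    · have : kap r π (π k) ≤ j := Nat.sInf_le ⟨j, rfl, hp.1, hb2.le⟩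
      omega

section agree

variable {π σ : Equiv.Perm (Fin n)} {j : Fin n}

theorem avail_of_agree (ha : ∀ i, i < j → π i = σ i) {t : ℕ} (ht : t ≤ j) {x : Fin n}
    (h : Avail r π t x) : Avail r σ t x := by
  obtain ⟨i, h1, h2⟩ := h
  exact ⟨i, h1, ha i (by rw [Fin.lt_def]; omega) ▸ h2⟩

theorem pool_of_agree (ha : ∀ i, i < j → π i = σ i) {z : Fin n} (h : Stock r π j z) :
    Stock r σ j z :=
  ⟨avail_of_agree ha le_rfl h.1, fun i hi => ha i hi ▸ h.2 i hi⟩

theorem min_le_of_agree (ha : ∀ i, i < j → π i = σ i) {z : Fin n} (h : Stock r π j z) :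
    min (kap r σ z) j ≤ min (kap r π z) j := by
  by_cases hc : kap r π z < j
  · obtain ⟨i, hi, h2, h3⟩ := kap_mem h.reg
    have : kap r σ z ≤ kap r π z :=
      Nat.sInf_le ⟨i, hi, avail_of_agree ha hc.le h2, ha i (by rw [Fin.lt_def]; omega) ▸ h3⟩
    omega
  · omega

theorem min_eq_of_agree (ha : ∀ i, i < j → π i = σ i) {z : Fin n} (h : Stock r π j z) :
    min (kap r σ z) j = min (kap r π z) j :=
  le_antisymm (min_le_of_agree ha h)
    (min_le_of_agree (fun i hi => (ha i hi).symm) (pool_of_agree ha h))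

theorem not_bef {ρ ρ' : Equiv.Perm (Fin n)} (h : Good r π ρ) (h' : Good r σ ρ')
    (he : ∀ k, ρ (π k) = ρ' (σ k)) (ha : ∀ i, i < j → π i = σ i) (hj : Reg r π (π j))
    (hj' : Reg r σ (σ j)) : ¬ Bef r π j (π j) (σ j) := by
  classical
  intro hb
  have ha' : ∀ i, i < j → σ i = π i := fun i hi => (ha i hi).symm
  have hpx : Stock r π j (π j) :=
    ⟨(reg_iff r π j).mp hj, fun i hi he => hi.ne (π.injective he)⟩
  have hpy : Stock r π j (σ j) := pool_of_agree ha'
    ⟨(reg_iff r σ j).mp hj', fun i hi he => hi.ne (σ.injective he)⟩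
  let X : Finset (Fin n) := Finset.univ.filter fun z => Stock r π j z ∧ Bef r π j z (π j)
  let Y : Finset (Fin n) := Finset.univ.filter fun z => Stock r σ j z ∧ Bef r σ j z (σ j)
  let K : Finset (Fin n) := Finset.univ.filter fun k => j < k ∧ ρ (π j) < ρ (π k)
  have hX : K.card = X.card := Finset.card_equiv π (fun k => by
    simp only [K, X, Finset.mem_filter, Finset.mem_univ, true_and]
    exact h.later_iff hj k)
  have hY : K.card = Y.card := Finset.card_equiv σ (fun k => by
    simp only [K, Y, Finset.mem_filter, Finset.mem_univ, true_and, he]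
    exact h'.later_iff hj' k)
  have hnot : π j ∉ X := by
    simp only [X, Finset.mem_filter, Finset.mem_univ, true_and, Bef]
    omega
  have hsub : insert (π j) X ⊆ Y := by
    intro z hz
    simp only [X, Y, Finset.mem_insert, Finset.mem_filter, Finset.mem_univ, true_and] at hz ⊢
    have e2 := min_eq_of_agree ha hpy
    rcases hz with rfl | ⟨hz1, hz2⟩
    · refine ⟨pool_of_agree ha hpx, ?_⟩
      have e1 := min_eq_of_agree ha hpx
      unfold Bef at hb ⊢
      omega
    · refine ⟨pool_of_agree ha hz1, ?_⟩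
      have e1 := min_eq_of_agree ha hz1
      unfold Bef at hb hz2 ⊢
      omega
  have := Finset.card_le_card hsub
  rw [Finset.card_insert_of_notMem hnot] at this
  omega

end agree

theorem good_inj {π σ ρ ρ' : Equiv.Perm (Fin n)} (h : Good r π ρ) (h' : Good r σ ρ')
    (he : π.trans ρ = σ.trans ρ') : π = σ := by
  have he' : ∀ k, ρ (π k) = ρ' (σ k) := fun k => by
    have := congrArg (fun f : Equiv.Perm (Fin n) => f k) he
    simpa using this
  have key : ∀ (t : ℕ) (j : Fin n), (j : ℕ) = t → π j = σ j := by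
    intro t
    induction t using Nat.strong_induction_on with
    | _ t ih =>
      intro j hjt
      have ha : ∀ i, i < j → π i = σ i := fun i hi => ih i (by rw [Fin.lt_def] at hi; omega) i rfl
      have ha' : ∀ i, i < j → σ i = π i := fun i hi => (ha i hi).symm
      by_cases hj : Reg r π (π j)
      · have hj' : Reg r σ (σ j) :=
          h'.reg_of_avail (he' j ▸ avail_of_agree ha le_rfl (h.avail' hj))
        have b1 := not_bef h h' he' ha hj hj'
        have b2 := not_bef h' h (fun k => (he' k).symm) ha' hj' hj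
        have hpx : Stock r π j (π j) :=
          ⟨(reg_iff r π j).mp hj, fun i hi he => hi.ne (π.injective he)⟩
        have hpy : Stock r π j (σ j) := pool_of_agree ha'
          ⟨(reg_iff r σ j).mp hj', fun i hi he => hi.ne (σ.injective he)⟩
        have e1 := min_eq_of_agree ha hpx
        have e2 := min_eq_of_agree ha hpy
        unfold Bef at b1 b2
        omega
      · have hj' : ¬ Reg r σ (σ j) := fun hj' =>
          hj (h.reg_of_avail ((he' j).symm ▸ avail_of_agree ha' le_rfl (h'.avail' hj')))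
        have := he' j
        rwa [h.1 _ hj, h'.1 _ hj'] at this
  exact Equiv.ext fun j => key _ j rfl

theorem card_le (r n : ℕ) :
    Nat.card {π : Equiv.Perm (Fin n) // No132 r π} ≤
      Nat.card {π : Equiv.Perm (Fin n) // No123 r π} := by
  choose ρ hρ using fun π : Equiv.Perm (Fin n) => exists_good r π
  refine Nat.card_le_card_of_injective
    (fun π => ⟨π.1.trans (ρ π.1), (hρ π.1).no123 π.2⟩) (fun π σ he => ?_)
  exact Subtype.ext (good_inj (hρ π.1) (hρ σ.1) (congrArg Subtype.val he))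

end Pool.Agent.Lib.MP_52d9f3_co.M3
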