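import Mathlib
import Pool.Agent.Lib.MP_52d9f3_co.Defs
import Pool.Agent.Lib.MP_52d9f3_co.M3.Inj

/-!
Reverse and complement symmetries of `avCount`, and the three-letter patterns.
-/

namespace Pool.Agent.Lib.MP_52d9f3_co.M3

open Pool.Agent.Lib.MP_52d9f3_co

theorem contains_of_compl {r m n : ℕ} {q : Equiv.Perm (Fin m)} {π : Equiv.Perm (Fin n)}
    (h : ContainsDist r q (π.trans Fin.revPerm)) : ContainsDist r (q.trans Fin.revPerm) π := by
  obtain ⟨i, h1, h2⟩ := h
  refine ⟨i, h1, fun a b => ?_⟩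
  have := h2 b a
  simp only [Equiv.trans_apply, Fin.revPerm_apply, Fin.rev_lt_rev] at this ⊢
  exact this

theorem contains_of_rev {r m n : ℕ} {q : Equiv.Perm (Fin m)} {π : Equiv.Perm (Fin n)}
    (h : ContainsDist r q (Fin.revPerm.trans π)) : ContainsDist r (Fin.revPerm.trans q) π := by
  obtain ⟨i, h1, h2⟩ := h
  refine ⟨fun a => Fin.rev (i (Fin.rev a)), fun j j' hj => ?_, fun a b => ?_⟩
  · have h3 := h1 (Fin.rev j') (Fin.rev j) (by
      have := j'.2
      simp only [Fin.val_rev]; omega)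
    have h4 := (i (Fin.rev j)).2
    simp only [Fin.val_rev] at h3 ⊢
    omega
  · have := h2 (Fin.rev a) (Fin.rev b)
    simpa only [Equiv.trans_apply, Fin.revPerm_apply] using this

theorem avCount_compl_le (r n : ℕ) {m : ℕ} (q : Equiv.Perm (Fin m)) :
    avCount r n (q.trans Fin.revPerm) ≤ avCount r n q := by
  refine Nat.card_le_card_of_injective
    (fun π => ⟨π.1.trans Fin.revPerm, fun h => π.2 (contains_of_compl h)⟩) (fun π σ he => ?_)
  have h1 : π.1.trans Fin.revPerm = σ.1.trans Fin.revPerm := congrArg Subtype.val he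
  refine Subtype.ext (Equiv.ext fun j => ?_)
  have := congrArg (fun f : Equiv.Perm (Fin n) => f j) h1
  simpa using this

theorem avCount_rev_le (r n : ℕ) {m : ℕ} (q : Equiv.Perm (Fin m)) :
    avCount r n (Fin.revPerm.trans q) ≤ avCount r n q := by
  refine Nat.card_le_card_of_injective
    (fun π => ⟨Fin.revPerm.trans π.1, fun h => π.2 (contains_of_rev h)⟩) (fun π σ he => ?_)
  have h1 : Fin.revPerm.trans π.1 = Fin.revPerm.trans σ.1 := congrArg Subtype.val he
  refine Subtype.ext (Equiv.ext fun j => ?_)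
  have := congrArg (fun f : Equiv.Perm (Fin n) => f (Fin.rev j)) h1
  simpa using this

theorem no132_of {r n : ℕ} {π : Equiv.Perm (Fin n)}
    (h : ¬ ContainsDist r (Equiv.swap (1 : Fin 3) 2) π) : No132 r π := by
  intro i j k hij hjk h1 h2
  refine h ⟨![i, j, k], fun a b hab => ?_, fun a b => ?_⟩
  · fin_cases a <;> fin_cases b <;> simp at hab ⊢ <;> omega
  · have h3 := h1.trans h2
    have e0 : Equiv.swap (1 : Fin 3) 2 0 = 0 := by decide
    have e1 : Equiv.swap (1 : Fin 3) 2 1 = 2 := by decide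
    have e2 : Equiv.swap (1 : Fin 3) 2 2 = 1 := by decide
    fin_cases a <;> fin_cases b <;>
      simp [e0, e1, e2, h1, h2, h3, h1.le, h2.le, h3.le]

theorem of_no123 {r n : ℕ} {π : Equiv.Perm (Fin n)} (h : No123 r π) :
    ¬ ContainsDist r (1 : Equiv.Perm (Fin 3)) π := by
  rintro ⟨i, h1, h2⟩
  exact h (i 0) (i 1) (i 2) (h1 0 1 rfl) (h1 1 2 rfl) ((h2 0 1).mpr (by decide))
    ((h2 1 2).mpr (by decide))

theorem avCount_swap_le (r n : ℕ) :
    avCount r n (Equiv.swap (1 : Fin 3) 2) ≤ avCount r n (1 : Equiv.Perm (Fin 3)) := by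
  refine le_trans ?_ ((card_le r n).trans ?_)
  · exact Nat.card_le_card_of_injective (fun π => ⟨π.1, no132_of π.2⟩)
      (fun π σ he => Subtype.ext (Subtype.mk.inj he))
  · exact Nat.card_le_card_of_injective (fun π => ⟨π.1, of_no123 π.2⟩)
      (fun π σ he => Subtype.ext (Subtype.mk.inj he))

theorem cases_three (q : Equiv.Perm (Fin 3)) :
    q = 1 ∨ q = (1 : Equiv.Perm (Fin 3)).trans Fin.revPerm ∨ q = Equiv.swap 1 2 ∨
      q = (Equiv.swap (1 : Fin 3) 2).trans Fin.revPerm ∨
      q = Fin.revPerm.trans (Equiv.swap (1 : Fin 3) 2) ∨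
      q = Fin.revPerm.trans ((Equiv.swap (1 : Fin 3) 2).trans Fin.revPerm) := by
  revert q
  decide

end Pool.Agent.Lib.MP_52d9f3_co.M3
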